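import Pool.Agent.Helper45.LN.All
import Pool.Agent.Helper37.LN2.K5
import Pool.Agent.Helper37.LN2.LOC
import Pool.Agent.Helper22.LN2.DEN
import Pool.Agent.Helper29.LN2.UP
import Pool.Agent.Helper97.LN2.CLS
import Pool.Agent.Helper97.LN2.Fin

/-!
# Project LN2: everything
-/

set_option autoImplicit false

namespace Pool.Agent.LN2

theorem loc_all : StmtLOC :=
  stmtLOC Pool.Agent.LN.tr (k5 (Pool.Agent.L.stmtK2 Pool.Agent.L.stmtK1) Pool.Agent.LN.k3
    Pool.Agent.LN.k4 Pool.Agent.L.stmtAR) Pool.Agent.LN.fr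

theorem fin_all : StmtFin :=
  fin_of loc_all Pool.Agent.Helper22.LN2.den up cls Pool.Agent.LN.low Pool.Agent.LN.clo

end Pool.Agent.LN2
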