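import Pool.Agent.Helper99.LN.Defs
import Pool.Agent.Helper45.HG.TotA

/-!
# Many classes modulo `n`-th powers (block CLO)
-/

set_option autoImplicit false

namespace Pool.Agent.LN

open NumberField IsDedekindDomain WithZero UniqueFactorizationMonoid
open scoped nonZeroDivisors
open Pool.Agent.HG (Pr nm)

section

variable {k : Type} [Field k] [NumberField k]

theorem val_int (v : Pr k) {α : 𝓞 k} (hα : α ≠ 0) : v.valuation k (α : k) =
    exp (-((multiplicity v.asIdeal (Ideal.span {α}) : ℕ) : ℤ)) :=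
  (v.valuation_of_algebraMap (K := k) α).trans (v.intValuation_eq_exp_neg_multiplicity hα)

theorem isRam_int_iff {n : ℕ} (v : Pr k) {α : 𝓞 k} (hα : α ≠ 0) :
    IsRam n v (α : k) ↔ ¬ n ∣ multiplicity v.asIdeal (Ideal.span {α}) := by
  classical
  have hval := val_int v hα
  constructor
  · rintro hram ⟨m, hm⟩
    obtain ⟨π, hπ⟩ := v.valuation_exists_uniformizer k
    apply hram (π ^ m)
    rw [hval, hm, map_pow, hπ, ← pow_mul, ← exp_nsmul, exp_inj, mul_comm n m]
    push_cast
    ring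
  · intro hd d hd2
    rw [hval] at hd2
    by_cases hn : n = 0
    · subst hn
      rw [pow_zero, exp_eq_one] at hd2
      apply hd
      have : (multiplicity v.asIdeal (Ideal.span {α}) : ℤ) = 0 := by omega
      have h2 : multiplicity v.asIdeal (Ideal.span {α}) = 0 := by exact_mod_cast this
      rw [h2]
    have hd0 : v.valuation k d ≠ 0 := by
      intro h0
      rw [h0, zero_pow hn] at hd2
      exact exp_ne_zero hd2
    rw [← exp_log hd0, ← exp_nsmul, exp_inj, nsmul_eq_mul] at hd2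
    apply hd
    have h3 : (n : ℤ) ∣ (multiplicity v.asIdeal (Ideal.span {α}) : ℤ) :=
      ⟨-log (v.valuation k d), by rw [mul_neg, ← hd2, neg_neg]⟩
    exact_mod_cast h3

theorem not_dvd_of_ne {v w : Pr k} (h : v ≠ w) : ¬ w.asIdeal ∣ v.asIdeal := by
  intro hd
  apply h
  have h1 : v.asIdeal ≤ w.asIdeal := Ideal.dvd_iff_le.1 hd
  exact HeightOneSpectrum.ext (v.isMaximal.eq_of_le w.isPrime.ne_top h1)

open scoped Classical in
theorem mult_prod (w : Pr k) (f : Pr k → ℕ) (s : Finset (Pr k)) :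
    multiplicity w.asIdeal (∏ v ∈ s, v.asIdeal ^ f v) = if w ∈ s then f w else 0 := by
  induction s using Finset.induction_on with
  | empty =>
    rw [Finset.prod_empty, if_neg (Finset.notMem_empty w)]
    refine multiplicity_eq_zero.2 fun h => w.prime.not_isUnit (isUnit_of_dvd_one h)
  | insert a s ha ih =>
    have hne : ∀ (t : Finset (Pr k)), (∏ v ∈ t, v.asIdeal ^ f v) ≠ 0 := fun t =>
      Finset.prod_ne_zero_iff.2 fun v _ => pow_ne_zero _ v.prime.ne_zero
    have hfin : FiniteMultiplicity w.asIdeal (a.asIdeal ^ f a * ∏ v ∈ s, v.asIdeal ^ f v) :=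
      FiniteMultiplicity.of_prime_left w.prime
        (mul_ne_zero (pow_ne_zero _ a.prime.ne_zero) (hne s))
    rw [Finset.prod_insert ha, multiplicity_mul w.prime hfin, ih]
    have hfa : FiniteMultiplicity w.asIdeal a.asIdeal :=
      FiniteMultiplicity.of_prime_left w.prime a.prime.ne_zero
    rw [hfa.multiplicity_pow w.prime]
    by_cases hwa : w = a
    · subst hwa
      rw [if_neg ha, if_pos (Finset.mem_insert_self _ _)]
      have h1 : multiplicity w.asIdeal w.asIdeal = 1 := multiplicity_self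
      rw [h1, mul_one, add_zero]
    · have h1 : multiplicity w.asIdeal a.asIdeal = 0 :=
        multiplicity_eq_zero.2 (not_dvd_of_ne (Ne.symm hwa))
      rw [h1, mul_zero, zero_add]
      by_cases hws : w ∈ s
      · rw [if_pos hws, if_pos (Finset.mem_insert_of_mem hws)]
      · rw [if_neg hws, if_neg]
        rw [Finset.mem_insert]
        rintro (h2 | h2)
        · exact hwa h2
        · exact hws h2

/-- finitely many ideals make every ideal principal -/
theorem exists_princ : ∃ F : Finset (Ideal (𝓞 k)), (∀ I ∈ F, I ≠ 0) ∧ ∀ J : Ideal (𝓞 k), J ≠ 0 →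
    ∃ I ∈ F, ∃ α : 𝓞 k, α ≠ 0 ∧ Ideal.span {α} = J * I := by
  classical
  have hsur := ClassGroup.mk0_surjective (R := 𝓞 k)
  choose g hg using hsur
  have : Fintype (ClassGroup (𝓞 k)) := inferInstance
  refine ⟨Finset.univ.image fun c => ((g c : (Ideal (𝓞 k))⁰) : Ideal (𝓞 k)), ?_, ?_⟩
  · intro I hI
    obtain ⟨c, -, rfl⟩ := Finset.mem_image.1 hI
    exact nonZeroDivisors.ne_zero (g c).2
  · intro J hJ
    let J' : (Ideal (𝓞 k))⁰ := ⟨J, mem_nonZeroDivisors_of_ne_zero hJ⟩
    let c : ClassGroup (𝓞 k) := (ClassGroup.mk0 J')⁻¹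
    refine ⟨_, Finset.mem_image_of_mem _ (Finset.mem_univ c), ?_⟩
    have h1 : ClassGroup.mk0 (J' * g c) = 1 := by
      rw [map_mul, hg, mul_inv_cancel]
    have h2 := (ClassGroup.mk0_eq_one_iff (J' * g c).2).1 h1
    obtain ⟨α, hα⟩ := h2.principal
    have h3 : Ideal.span {α} = J * (g c : Ideal (𝓞 k)) := hα.symm
    refine ⟨α, ?_, h3⟩
    rintro rfl
    have h4 : J * (g c : Ideal (𝓞 k)) = 0 := by
      rw [← h3, Ideal.span_singleton_eq_bot.2 rfl]; rfl
    exact mul_ne_zero hJ (nonZeroDivisors.ne_zero (g c).2) h4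

end

theorem clo : StmtCLO := by
  classical
  intro k _ _ n hn
  obtain ⟨F, hF0, hF⟩ := exists_princ (k := k)
  have hBfin : {v : Pr k | ∃ I ∈ F, v.asIdeal ∣ I}.Finite := by
    have h1 : {v : Pr k | ∃ I ∈ F, v.asIdeal ∣ I} = ⋃ I ∈ F, {v : Pr k | v.asIdeal ∣ I} := by
      ext v
      simp
    rw [h1]
    refine Set.Finite.biUnion F.finite_toSet fun I hI => ?_
    exact Ideal.finite_factors (hF0 I hI)
  have hnm : ∀ v : Pr k, 0 < nm v := fun v => by
    refine Nat.pos_of_ne_zero ?_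
    show Ideal.absNorm v.asIdeal ≠ 0
    rw [Ne, Ideal.absNorm_eq_zero_iff]
    exact v.ne_bot
  refine ⟨{v : Pr k | ∃ I ∈ F, v.asIdeal ∣ I}, ∏ v ∈ hBfin.toFinset, nm v, hBfin,
    Finset.prod_pos fun v _ => hnm v, fun Y S hS => ?_⟩
  -- the exponents
  let ex : (Σ s : Finset (Pr k), ∀ v ∈ s, ℕ) → Pr k → ℕ := fun p v =>
    if hv : v ∈ p.1 then p.2 v hv else 0
  have hex : ∀ p, ∀ v ∉ p.1, ex p v = 0 := fun p v hv => dif_neg hv
  have hex' : ∀ p v (hv : v ∈ p.1), ex p v = p.2 v hv := fun p v hv => dif_pos hv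
  have hJ0 : ∀ p : (Σ s : Finset (Pr k), ∀ v ∈ s, ℕ), (∏ v ∈ p.1, v.asIdeal ^ ex p v) ≠ 0 :=
    fun p => Finset.prod_ne_zero_iff.2 fun v _ => pow_ne_zero _ v.prime.ne_zero
  choose I hI c hc0 hc using fun p => hF _ (hJ0 p)
  obtain ⟨PP, hPP⟩ : ∃ A : Finset (Σ s : Finset (Pr k), ∀ v ∈ s, ℕ),
      A = S.sigma fun s => s.pi fun _ => Finset.Ico 1 n := ⟨_, rfl⟩
  have hmem : ∀ p, p ∈ PP ↔ p.1 ∈ S ∧ ∀ v (hv : v ∈ p.1), p.2 v hv ∈ Finset.Ico 1 n := by
    intro p
    rw [hPP, Finset.mem_sigma, Finset.mem_pi]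
  -- the multiplicities
  have hmult : ∀ p, p.1 ∈ S → ∀ v : Pr k, (¬ ∃ J ∈ F, v.asIdeal ∣ J) →
      multiplicity v.asIdeal (Ideal.span {c p}) = ex p v := by
    intro p hp v hv
    have h1 : FiniteMultiplicity v.asIdeal ((∏ v ∈ p.1, v.asIdeal ^ ex p v) * I p) :=
      FiniteMultiplicity.of_prime_left v.prime (mul_ne_zero (hJ0 p) (hF0 _ (hI p)))
    rw [hc p, multiplicity_mul v.prime h1, mult_prod]
    have h2 : multiplicity v.asIdeal (I p) = 0 :=
      multiplicity_eq_zero.2 fun h => hv ⟨I p, hI p, h⟩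
    rw [h2, add_zero]
    by_cases hvs : v ∈ p.1
    · rw [if_pos hvs]
    · rw [if_neg hvs, hex p v hvs]
  -- injectivity
  have hinj : ∀ p ∈ PP, ∀ q ∈ PP, (∃ d : k, ((c p : 𝓞 k) : k) = (c q : k) * d ^ n) → p = q := by
    rintro p hp q hq ⟨d, hd⟩
    rw [hmem] at hp hq
    have hcp : ((c p : 𝓞 k) : k) ≠ 0 := fun h => hc0 p (RingOfIntegers.coe_eq_zero_iff.1 h)
    have hd0 : d ≠ 0 := by
      rintro rfl
      rw [zero_pow (by omega), mul_zero] at hd
      exact hcp hd
    have hexeq : ∀ v, ex p v = ex q v := by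
      intro v
      by_cases hv : ∃ J ∈ F, v.asIdeal ∣ J
      · rw [hex p v ((hS p.1 hp.1).2 v hv), hex q v ((hS q.1 hq.1).2 v hv)]
      · have h1 := congrArg (v.valuation k) hd
        rw [map_mul, map_pow, val_int v (hc0 p), val_int v (hc0 q), hmult p hp.1 v hv,
          hmult q hq.1 v hv] at h1
        have hvd : v.valuation k d ≠ 0 := by simpa using hd0
        rw [← exp_log hvd, ← exp_nsmul, ← exp_add, exp_inj, nsmul_eq_mul] at h1
        have hlt : ∀ r : (Σ s : Finset (Pr k), ∀ v ∈ s, ℕ),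
            (∀ v (hv : v ∈ r.1), r.2 v hv ∈ Finset.Ico 1 n) → ex r v < n := by
          intro r hr
          by_cases hvr : v ∈ r.1
          · rw [hex' r v hvr]
            exact (Finset.mem_Ico.1 (hr v hvr)).2
          · rw [hex r v hvr]; omega
        have hp1 := hlt p hp.2
        have hq1 := hlt q hq.2
        obtain ⟨m, hm⟩ : ∃ m : ℤ, m = log (v.valuation k d) := ⟨_, rfl⟩
        rw [← hm] at h1
        have h2 : (ex q v : ℤ) - ex p v = n * m := by linarith
        have h3 : m = 0 := by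
          by_contra hm0
          have h4 : (n : ℤ) ≤ |(n : ℤ) * m| := by
            rw [abs_mul, Nat.abs_cast]
            have h5 : (1 : ℤ) ≤ |m| := Int.one_le_abs hm0
            nlinarith
          rw [← h2] at h4
          have h6 : |(ex q v : ℤ) - ex p v| < n := by
            rw [abs_lt]
            constructor <;> omega
          omega
        rw [h3, mul_zero] at h2
        omega
    obtain ⟨s, e⟩ := p
    obtain ⟨s', e'⟩ := q
    have hs : s = s' := by
      ext v
      have key : ∀ r : (Σ s : Finset (Pr k), ∀ v ∈ s, ℕ),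
          (∀ v (hv : v ∈ r.1), r.2 v hv ∈ Finset.Ico 1 n) → (v ∈ r.1 ↔ ex r v ≠ 0) := by
        intro r hr
        by_cases hvr : v ∈ r.1
        · rw [hex' r v hvr]
          have := (Finset.mem_Ico.1 (hr v hvr)).1
          constructor
          · intro _; omega
          · intro _; exact hvr
        · rw [hex r v hvr]
          constructor
          · intro h; exact absurd h hvr
          · intro h; exact absurd rfl h
      rw [key ⟨s, e⟩ hp.2, key ⟨s', e'⟩ hq.2, hexeq]
    subst hs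
    congr 1
    funext v hv
    have := hexeq v
    rwa [hex' ⟨s, e⟩ v hv, hex' ⟨s, e'⟩ v hv] at this
  refine ⟨PP.image fun p => ((c p : 𝓞 k) : k), ?_, ?_, ?_⟩
  · intro a ha b hb hab
    obtain ⟨p, hp, rfl⟩ := Finset.mem_image.1 ha
    obtain ⟨q, hq, rfl⟩ := Finset.mem_image.1 hb
    rw [hinj p hp q hq hab]
  · intro a ha
    obtain ⟨p, hp, rfl⟩ := Finset.mem_image.1 ha
    rw [hmem] at hp
    refine ⟨fun h => hc0 p (RingOfIntegers.coe_eq_zero_iff.1 h), ?_⟩
    have hsub : ∀ v : Pr k, IsRam n v ((c p : 𝓞 k) : k) → v ∈ p.1 ∪ hBfin.toFinset := by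
      intro v hv
      by_contra hcon
      rw [Finset.mem_union, Set.Finite.mem_toFinset] at hcon
      push Not at hcon
      rw [isRam_int_iff v (hc0 p), hmult p hp.1 v hcon.2, hex p v hcon.1] at hv
      exact hv (dvd_zero n)
    have h1 : cond n ((c p : 𝓞 k) : k) =
        ∏ v ∈ p.1 ∪ hBfin.toFinset, if IsRam n v ((c p : 𝓞 k) : k) then nm v else 1 := by
      unfold cond
      refine finprod_eq_prod_of_mulSupport_subset _ ?_
      intro v hv
      rw [Function.mem_mulSupport] at hv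
      by_contra hcon
      apply hv
      rw [if_neg fun h => hcon (hsub v h)]
    have hdisj : Disjoint p.1 hBfin.toFinset := by
      rw [Finset.disjoint_left]
      intro v hv hv'
      exact (hS p.1 hp.1).2 v (hBfin.mem_toFinset.1 hv') hv
    rw [h1]
    calc (∏ v ∈ p.1 ∪ hBfin.toFinset, if IsRam n v ((c p : 𝓞 k) : k) then nm v else 1)
        ≤ ∏ v ∈ p.1 ∪ hBfin.toFinset, nm v := by
          refine Finset.prod_le_prod' fun v _ => ?_
          split_ifs
          · exact le_rfl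
          · exact hnm v
      _ = (∏ v ∈ p.1, nm v) * ∏ v ∈ hBfin.toFinset, nm v := Finset.prod_union hdisj
      _ ≤ Y * ∏ v ∈ hBfin.toFinset, nm v := Nat.mul_le_mul_right _ (hS p.1 hp.1).1
      _ = _ := mul_comm _ _
  · rw [Finset.card_image_of_injOn]
    · rw [hPP, Finset.card_sigma, Nat.cast_sum]
      refine le_of_eq (Finset.sum_congr rfl fun s _ => ?_)
      rw [Finset.card_pi, Finset.prod_const, Nat.card_Ico, Nat.cast_pow]
    · intro p hp q hq h
      exact hinj p hp q hq ⟨1, by rw [one_pow, mul_one]; exact h⟩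

end Pool.Agent.LN
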