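import Pool.Agent.Helper45.L.K1
import Pool.Agent.Helper10.L.K2
import Pool.Agent.Helper71.L.AR
import Pool.Agent.Helper99.LN.K3
import Pool.Agent.Helper99.LN.K4
import Pool.Agent.Helper99.LN.K5
import Pool.Agent.Helper37.LN.TR
import Pool.Agent.Helper79.LN.FR
import Pool.Agent.Helper79.LN.LOC
import Pool.Agent.Helper22.LN.DEN
import Pool.Agent.Helper29.LN.UP
import Pool.Agent.Helper88.LN.Low
import Pool.Agent.Helper45.LN.CLO
import Pool.Agent.Helper97.LN.Fin

/-!
# Project LN: everything
-/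

set_option autoImplicit false

namespace Pool.Agent.LN

theorem loc : StmtLOC :=
  stmtLOC tr (k5 (Pool.Agent.L.stmtK2 Pool.Agent.L.stmtK1) k3 k4 Pool.Agent.L.stmtAR) fr

theorem finLN : StmtFinLN :=
  finLN_of loc Pool.Agent.Helper22.LN.den up low clo

end Pool.Agent.LN
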